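import Pool.Agent.Helper76.FT.GoalsC

/-!
# FT-SHRINK (MP_39e2b7_an)
-/

set_option autoImplicit false

namespace Pool.Agent.Helper85.FTShrink

open Complex Set Filter Topology
open Pool.Agent.Helper76.FT

theorem Str_mono {ρ' ρ : ℝ} (h : ρ' ≤ ρ) : Str ρ' ⊆ Str ρ := fun _ hz => lt_of_lt_of_le hz h

theorem SH_mono {f : ℂ → ℝ → ℂ} {ρ' ρ : ℝ} (h : ρ' ≤ ρ) (hf : SH f ρ) : SH f ρ' where
  hol := fun t ht => (hf.hol t ht).mono (Str_mono h)
  cont := hf.cont.mono (prod_mono (Str_mono h) subset_rfl)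
  per := fun z hz t ht => hf.per z (Str_mono h hz) t ht

theorem Tor_mono {S : Sys} {δ ρ ρ' : ℝ} {w : ℂ → ℝ → ℂ} {c : ℂ} (hT : Tor S δ w ρ c)
    (h0 : 0 < ρ') (h : ρ' ≤ ρ) : Tor S δ w ρ' c where
  hρ := h0
  sh := SH_mono h hT.sh
  nb := fun z hz t ht => hT.nb z (Str_mono h hz) t ht
  line := fun z hz s hs t ht hz' => hT.line z (Str_mono h hz) s hs t ht (Str_mono h hz')
  kick := fun z hz => hT.kick z (Str_mono h hz)
  pos := hT.pos
  reg := hT.reg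
  mean := hT.mean

theorem ft_shrink : GReg → GShrink := by
  intro hG S hS r₃ δ ρ w c hδ hT
  refine ⟨fun ρ' h0 h => Tor_mono hT h0 h, ?_⟩
  obtain ⟨-, -, -, -, -, -, hopen, hinv, -⟩ := hG S hS
  have hr3 : 0 < r₃ := by
    have h1 := hT.pos 0 0 ⟨le_refl 0, zero_le_one⟩
    linarith [h1.1, h1.2]
  -- real points
  have hreal : ∀ x : ℝ, ∀ t ∈ Icc (0:ℝ) 1, ((x : ℂ), w (x : ℂ) t) ∈ S.Nb t r₃ := by
    intro x t ht
    refine ⟨(x, (w (x : ℂ) t).re), hT.reg x t ht, ?_, ?_⟩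
    · simpa using hr3
    · have h1 := hT.pos x t ht
      have h2 : w (x : ℂ) t - ((w (x : ℂ) t).re : ℂ) = ((w (x : ℂ) t).im : ℂ) * I := by
        apply Complex.ext <;> simp
      show ‖w (x : ℂ) t - ((w (x : ℂ) t).re : ℂ)‖ < r₃
      rw [h2, norm_mul, Complex.norm_I, mul_one, Complex.norm_real, Real.norm_eq_abs,
        abs_of_pos h1.1]
      linarith [h1.2]
  -- the good set
  let U : Set (ℂ × ℝ) := {q | q ∈ Str ρ ×ˢ Icc (0:ℝ) 1 → (q.1, w q.1 q.2) ∈ S.Nb q.2 r₃}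
  have hStr : ∀ x : ℝ, (x : ℂ) ∈ Str ρ := fun x => by
    show |(x : ℂ).im| < ρ
    simpa using hT.hρ
  have hU : ∀ x : ℝ, ∀ t ∈ Icc (0:ℝ) 1, U ∈ 𝓝 ((x : ℂ), t) := by
    intro x t ht
    have h1 := hopen r₃ t ht ((x : ℂ), w (x : ℂ) t) (hreal x t ht)
    have hc : ContinuousWithinAt (fun q : ℂ × ℝ => w q.1 q.2) (Str ρ ×ˢ Icc (0:ℝ) 1)
        ((x : ℂ), t) := hT.sh.cont _ ⟨hStr x, ht⟩
    have hc2 : ContinuousWithinAt (fun q : ℂ × ℝ => (q.2, (q.1, w q.1 q.2)))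
        (Str ρ ×ˢ Icc (0:ℝ) 1) ((x : ℂ), t) :=
      continuousWithinAt_snd.prodMk (continuousWithinAt_fst.prodMk hc)
    have h2 : Tendsto (fun q : ℂ × ℝ => (q.2, (q.1, w q.1 q.2)))
        (𝓝[Str ρ ×ˢ Icc (0:ℝ) 1] ((x : ℂ), t))
        (𝓝[Icc (0:ℝ) 1 ×ˢ univ] (t, ((x : ℂ), w (x : ℂ) t))) := by
      apply tendsto_nhdsWithin_of_tendsto_nhds_of_eventually_within _ hc2
      filter_upwards [self_mem_nhdsWithin] with q hq
      exact ⟨hq.2, mem_univ _⟩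
    have h3 := h2.eventually h1
    rw [eventually_nhdsWithin_iff] at h3
    exact h3
  let KK : Set (ℂ × ℝ) := (fun q : ℝ × ℝ => ((q.1 : ℂ), q.2)) '' (Icc (0:ℝ) 1 ×ˢ Icc (0:ℝ) 1)
  have hK : IsCompact KK := by
    apply (isCompact_Icc.prod isCompact_Icc).image
    exact (Complex.continuous_ofReal.comp continuous_fst).prodMk continuous_snd
  have hKU : KK ⊆ interior U := by
    rintro _ ⟨⟨x, t⟩, ⟨_, ht⟩, rfl⟩
    exact mem_interior_iff_mem_nhds.2 (hU x t ht)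
  obtain ⟨ε, hε, hεU⟩ := hK.exists_thickening_subset_open isOpen_interior hKU
  refine ⟨min ε ρ, lt_min hε hT.hρ, min_le_right _ _, ?_⟩
  -- unit period
  have hunit : ∀ z : ℂ, 0 ≤ z.re → z.re ≤ 1 → |z.im| < min ε ρ → ∀ t ∈ Icc (0:ℝ) 1,
      (z, w z t) ∈ S.Nb t r₃ := by
    intro z h0 h1 him t ht
    have hmem : (z, t) ∈ Metric.thickening ε KK := by
      rw [Metric.mem_thickening_iff]
      refine ⟨((z.re : ℂ), t), ⟨(z.re, t), ⟨⟨h0, h1⟩, ht⟩, rfl⟩, ?_⟩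
      rw [Prod.dist_eq, dist_self, dist_eq_norm]
      have h2 : z - (z.re : ℂ) = (z.im : ℂ) * I := by
        apply Complex.ext <;> simp
      show max ‖z - (z.re : ℂ)‖ 0 < ε
      rw [h2, norm_mul, Complex.norm_I, mul_one, Complex.norm_real, Real.norm_eq_abs]
      exact max_lt (him.trans_le (min_le_left _ _)) hε
    have hzU : (z, t) ∈ U := interior_subset (hεU hmem)
    exact hzU ⟨him.trans_le (min_le_right _ _), ht⟩
  intro z hz
  -- reduction to the unit period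
  let z₀ : ℂ := z - (⌊z.re⌋ : ℂ)
  have hz0im : z₀.im = z.im := by simp [z₀]
  have hz0re : z₀.re = Int.fract z.re := by simp [z₀]
  have hper : ∀ n : ℤ, ∀ t ∈ Icc (0:ℝ) 1, (z₀ + n, w (z₀ + n) t) ∈ S.Nb t r₃ := by
    have hin : ∀ n : ℤ, z₀ + n ∈ Str ρ := fun n => by
      show |(z₀ + n).im| < ρ
      have : (z₀ + n).im = z.im := by simp [hz0im]
      rw [this]
      exact lt_of_lt_of_le hz (min_le_right _ _)
    intro n
    induction n using Int.induction_on with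
    | zero =>
      intro t ht
      have h1 := hunit z₀ (by rw [hz0re]; exact Int.fract_nonneg _)
        (by rw [hz0re]; exact (Int.fract_lt_one _).le) (by rw [hz0im]; exact hz) t ht
      simpa using h1
    | succ n ih =>
      intro t ht
      have h1 := (hinv r₃ t ht _ (ih t ht)).1
      have h2 := hT.sh.per _ (hin n) t ht
      have h3 : z₀ + ((n : ℤ) + 1 : ℤ) = z₀ + (n : ℤ) + 1 := by push_cast; ring
      rw [h3, h2]
      exact h1
    | pred n ih =>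
      intro t ht
      have h1 := (hinv r₃ t ht _ (ih t ht)).2.1
      have h2 := hT.sh.per _ (hin (-(n : ℤ) - 1)) t ht
      have h3 : z₀ + ((-(n : ℤ) - 1 : ℤ) : ℂ) + 1 = z₀ + ((-(n : ℤ) : ℤ) : ℂ) := by
        push_cast; ring
      rw [h3] at h2
      have h4 : z₀ + ((-(n : ℤ) - 1 : ℤ) : ℂ) = z₀ + ((-(n : ℤ) : ℤ) : ℂ) - 1 := by
        push_cast; ring
      rw [← h2, h4]
      exact h1
  intro t ht
  have h1 := hper ⌊z.re⌋ t ht
  have h2 : z₀ + (⌊z.re⌋ : ℂ) = z := by simp [z₀]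
  rw [h2] at h1
  exact h1

end Pool.Agent.Helper85.FTShrink
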